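import Mathlib

/-! Orbit separation for groups acting unipotently on a finitely generated abelian group. -/

namespace Pool.Agent.K1H23.FT

open scoped Classical

/-- The torsion of a finitely generated abelian group has finite exponent. -/
theorem torsion_exp (C : Type*) [AddCommGroup C] [AddGroup.FG C] :
    ∃ e : ℕ, 0 < e ∧ ∀ c : C, (∃ k : ℕ, 0 < k ∧ k • c = 0) → e • c = 0 := by
  have hM : Module.Finite ℤ C := Module.Finite.iff_addGroup_fg.2 inferInstance
  let T : AddSubgroup C := AddCommGroup.torsion C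
  have hT : AddGroup.FG T := by
    have h1 : (AddSubgroup.toIntSubmodule T).FG := IsNoetherian.noetherian _
    have h2 : Module.Finite ℤ (AddSubgroup.toIntSubmodule T) := Module.Finite.iff_fg.2 h1
    exact Module.Finite.iff_addGroup_fg.1 h2
  have hTt : IsAddTorsion T := by
    intro t
    have h1 : IsOfFinAddOrder (t : C) := t.2
    rw [isOfFinAddOrder_iff_nsmul_eq_zero] at h1 ⊢
    obtain ⟨k, hk, h2⟩ := h1
    exact ⟨k, hk, Subtype.ext h2⟩
  have hfin : Finite T := AddCommGroup.finite_of_fg_isAddTorsion T hTt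
  refine ⟨Nat.card T, Nat.card_pos, ?_⟩
  rintro c ⟨k, hk, hkc⟩
  have hcT : c ∈ T := by
    change IsOfFinAddOrder _
    rw [isOfFinAddOrder_iff_nsmul_eq_zero]
    exact ⟨k, hk, hkc⟩
  have h3 : Nat.card T • (⟨c, hcT⟩ : T) = 0 := card_nsmul_eq_zero'
  exact congrArg (fun t : T => (t : C)) h3

/-- Every finitely generated abelian group `C` and subgroup `B`: for every `N > 0` there is `m > 0`
with `mC ∩ B ⊆ NB`. -/
theorem artin_rees {C : Type*} [AddCommGroup C] [AddGroup.FG C] (B : AddSubgroup C) (N : ℕ)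
    (hN : 0 < N) : ∃ m : ℕ, 0 < m ∧ ∀ c : C, m • c ∈ B → ∃ b ∈ B, m • c = N • b := by
  obtain ⟨e, he, h⟩ := torsion_exp (C ⧸ B)
  have h' : ∀ c : C, (∃ k : ℕ, 0 < k ∧ k • c ∈ B) → e • c ∈ B := by
    rintro c ⟨k, hk, hkc⟩
    have h4 := h (QuotientAddGroup.mk c) ⟨k, hk, by
      rw [← QuotientAddGroup.mk_nsmul, QuotientAddGroup.eq_zero_iff]
      exact hkc⟩
    rw [← QuotientAddGroup.mk_nsmul, QuotientAddGroup.eq_zero_iff] at h4
    exact h4
  refine ⟨N * e, Nat.mul_pos hN he, fun c hc => ⟨e • c, h' c ⟨N * e, Nat.mul_pos hN he, hc⟩, ?_⟩⟩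
  rw [smul_smul]

/-- A finitely generated abelian group has no nonzero element divisible by all `m`. -/
theorem div_zero (C : Type*) [AddCommGroup C] [AddGroup.FG C] (c : C)
    (h : ∀ m : ℕ, 0 < m → ∃ d : C, c = m • d) : c = 0 := by
  obtain ⟨e, he, h1⟩ := torsion_exp C
  -- `c = m d`; in `C / torsion` free so `c` is torsion; then `c = e d'` with `d'` torsion.
  have ht : ∃ k : ℕ, 0 < k ∧ k • c = 0 := by
    by_contra hcon
    push Not at hcon
    -- apply artin_rees to `zmultiples c` with N = 2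
    obtain ⟨m, hm, h2⟩ := artin_rees (AddSubgroup.zmultiples c) 2 (by norm_num)
    obtain ⟨d, hd⟩ := h m hm
    obtain ⟨b, hb, h3⟩ := h2 d (by rw [← hd]; exact AddSubgroup.mem_zmultiples c)
    obtain ⟨k, rfl⟩ := AddSubgroup.mem_zmultiples_iff.1 hb
    rw [← hd] at h3
    have h4 : (2 * k - 1 : ℤ) • c = 0 := by
      rw [sub_smul, mul_smul, one_smul, sub_eq_zero]
      have h6 : (2 : ℤ) • (k • c) = 2 • (k • c) := by exact_mod_cast natCast_zsmul (k • c) 2
      rw [h6, ← h3]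
    have h5 := hcon (2 * k - 1).natAbs (by omega)
    apply h5
    rcases Int.natAbs_eq (2 * k - 1) with h6 | h6
    · rw [h6] at h4; exact_mod_cast h4
    · rw [h6, neg_smul, neg_eq_zero] at h4; exact_mod_cast h4
  obtain ⟨d, hd⟩ := h e he
  obtain ⟨k, hk, hkc⟩ := ht
  rw [hd]
  exact h1 d ⟨k * e, Nat.mul_pos hk he, by rw [mul_smul, ← hd, hkc]⟩

section

variable {G R : Type*} [Group G] [AddCommGroup R] [DistribMulAction G R]

theorem smul_nsmul (g : G) (r : R) (m : ℕ) : g • (m • r) = m • (g • r) :=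
  map_nsmul (DistribSMul.toAddMonoidHom R g) m r

variable (G) in
/-- The filtration `F 0 = R ⊇ F 1 ⊇ ... ⊇ F n = 0`, every `h : G` acts trivially on the
successive quotients. -/
structure Unip (F : ℕ → AddSubgroup R) (n : ℕ) : Prop where
  top : F 0 = ⊤
  bot : F n = ⊥
  anti : ∀ i, F (i + 1) ≤ F i
  act : ∀ h : G, ∀ i, ∀ z ∈ F i, h • z - z ∈ F (i + 1)

variable {F : ℕ → AddSubgroup R} {n : ℕ}

theorem Unip.pres (U : Unip G F n) (h : G) {i : ℕ} {z : R} (hz : z ∈ F i) :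
    h • z ∈ F i := by
  have h1 := U.anti i (U.act h i z hz)
  have : h • z = (h • z - z) + z := by abel
  rw [this]
  exact (F i).add_mem h1 hz

/-- the subgroup `F i + M R`. -/
def KK (F : ℕ → AddSubgroup R) (M : ℕ) (i : ℕ) : AddSubgroup R :=
  F i ⊔ (nsmulAddMonoidHom M : R →+ R).range

theorem mem_KK {M i : ℕ} {z : R} : z ∈ KK F M i ↔ ∃ f ∈ F i, ∃ r : R, z = f + M • r := by
  unfold KK
  rw [AddSubgroup.mem_sup]
  constructor
  · rintro ⟨f, hf, w, ⟨r, rfl⟩, rfl⟩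
    exact ⟨f, hf, r, rfl⟩
  · rintro ⟨f, hf, r, rfl⟩
    exact ⟨f, hf, M • r, ⟨r, rfl⟩, rfl⟩

theorem Unip.presKK (U : Unip G F n) (h : G) {M i : ℕ} {z : R}
    (hz : z ∈ KK F M i) : h • z ∈ KK F M i := by
  rw [mem_KK] at hz ⊢
  obtain ⟨f, hf, r, rfl⟩ := hz
  exact ⟨h • f, U.pres h hf, h • r, by rw [smul_add, smul_nsmul h r M]⟩

/-- `v^j z - z ≡ j f` modulo any `v`-stable subgroup `K` with `v z - z ≡ f`, `v f ≡ f`. -/
theorem pow_sub (K : AddSubgroup R) (v : G) (hv : ∀ k ∈ K, v • k ∈ K) (z f : R)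
    (h1 : v • z - z - f ∈ K) (h2 : v • f - f ∈ K) (j : ℕ) : (v ^ j) • z - z - j • f ∈ K := by
  induction j with
  | zero => simp [K.zero_mem]
  | succ j ih =>
    have e : (v ^ (j + 1)) • z - z - (j + 1) • f
        = v • ((v ^ j) • z - z - j • f) + j • (v • f - f) + (v • z - z - f) := by
      rw [pow_succ', mul_smul, smul_sub, smul_sub, smul_nsmul v f j, succ_nsmul, nsmul_sub]
      abel
    rw [e]
    exact K.add_mem (K.add_mem (hv _ ih) (K.nsmul_mem h2 j)) h1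

theorem Unip.powM (U : Unip G F n) (M : ℕ) (u : G) (i : ℕ) (z : R) :
    (u ^ (M ^ i)) • z - z ∈ KK F M i := by
  induction i generalizing z with
  | zero =>
    rw [mem_KK]
    exact ⟨(u ^ (M ^ 0)) • z - z, by rw [U.top]; trivial, 0, by simp⟩
  | succ i ih =>
    obtain ⟨f, hf, r, hr⟩ := mem_KK.1 (ih z)
    have h1 := pow_sub (KK F M (i + 1)) (u ^ (M ^ i)) (fun k hk => U.presKK _ hk) z f
      (by rw [hr, mem_KK]; exact ⟨0, (F (i+1)).zero_mem, r, by abel⟩)
      (mem_KK.2 ⟨(u ^ (M ^ i)) • f - f, U.act _ i f hf, 0, by simp⟩) M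
    rw [← pow_mul, ← pow_succ] at h1
    have h2 : M • f ∈ KK F M (i + 1) := mem_KK.2 ⟨0, (F (i+1)).zero_mem, f, by simp⟩
    have := (KK F M (i+1)).add_mem h1 h2
    simpa using this

/-- congruence elements -/
def Cong (R : Type*) [AddCommGroup R] [DistribMulAction G R] (M : ℕ) (k : G) : Prop :=
  ∀ z : R, ∃ r : R, k • z - z = M • r

theorem Unip.congPow (U : Unip G F n) (M : ℕ) (u : G) :
    Cong R M (u ^ (M ^ n)) := by
  intro z
  obtain ⟨f, hf, r, hr⟩ := mem_KK.1 (U.powM M u n z)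
  rw [U.bot, AddSubgroup.mem_bot] at hf
  exact ⟨r, by rw [hr, hf, zero_add]⟩

theorem Cong.mul {M : ℕ} {k l : G} (hk : Cong R M k) (hl : Cong R M l) : Cong R M (k * l) := by
  intro z
  obtain ⟨r, hr⟩ := hl z
  obtain ⟨s, hs⟩ := hk (l • z)
  refine ⟨s + r, ?_⟩
  rw [mul_smul, nsmul_add, ← hr, ← hs]; abel

theorem Cong.one {M : ℕ} : Cong R M (1 : G) := fun z => ⟨0, by simp⟩

theorem Cong.pow {M : ℕ} {k : G} (hk : Cong R M k) (j : ℕ) : Cong R M (k ^ j) := by
  induction j with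
  | zero => simpa using Cong.one
  | succ j ih => rw [pow_succ]; exact ih.mul hk

theorem Cong.of_dvd {M M' : ℕ} (h : M ∣ M') {k : G} (hk : Cong R M' k) : Cong R M k := by
  obtain ⟨c, rfl⟩ := h
  intro z
  obtain ⟨r, hr⟩ := hk z
  exact ⟨c • r, by rw [hr, smul_smul]⟩

/-- the subgroup of first differences of the stabiliser of `x` modulo `F i`. -/
def DD (U : Unip G F n) (x : R) (i : ℕ) : AddSubgroup R where
  carrier := {d | d ∈ F i ∧ ∃ s : G, s • x - x - d ∈ F (i + 1)}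
  zero_mem' := ⟨(F i).zero_mem, 1, by simp [(F (i+1)).zero_mem]⟩
  add_mem' := by
    rintro a b ⟨ha, s, hsa⟩ ⟨hb, t, htb⟩
    refine ⟨(F i).add_mem ha hb, s * t, ?_⟩
    have e : (s * t) • x - x - (a + b)
        = s • (t • x - x - b) + (s • b - b) + (s • x - x - a) := by
      rw [mul_smul, smul_sub, smul_sub]; abel
    rw [e]
    exact (F (i+1)).add_mem ((F (i+1)).add_mem (U.pres s htb) (U.act s i b hb)) hsa
  neg_mem' := by
    rintro a ⟨ha, s, hsa⟩
    refine ⟨(F i).neg_mem ha, s⁻¹, ?_⟩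
    have e : s⁻¹ • x - x - -a = -(s⁻¹ • (s • x - x - a)) - (s⁻¹ • a - a) := by
      rw [smul_sub, smul_sub, inv_smul_smul]; abel
    rw [e]
    exact (F (i+1)).sub_mem ((F (i+1)).neg_mem (U.pres _ hsa)) (U.act _ i a ha)

theorem Unip.step [AddGroup.FG R] (U : Unip G F n) (x : R) (i : ℕ) :
    ∀ M : ℕ, 0 < M → ∃ m : ℕ, 0 < m ∧ ∀ h : G, h • x - x ∈ KK F m i →
      ∃ k s : G, h = k * s ∧ Cong R M k ∧ s • x - x ∈ F i := by
  induction i with
  | zero =>
    intro M _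
    exact ⟨1, one_pos, fun h _ => ⟨1, h, by simp, Cong.one, by
      rw [U.top]; trivial⟩⟩
  | succ i ih =>
    intro M hM
    obtain ⟨m₁, hm₁, har⟩ := artin_rees (DD U x i) (M ^ n) (pow_pos hM n)
    obtain ⟨m₂, hm₂, hP⟩ := ih (M * m₁) (Nat.mul_pos hM hm₁)
    refine ⟨m₂ * (M * m₁), Nat.mul_pos hm₂ (Nat.mul_pos hM hm₁), ?_⟩
    intro h hx
    obtain ⟨f, hf, r, hr⟩ := mem_KK.1 hx
    obtain ⟨k, s, rfl, hkc, hsF⟩ := hP h (mem_KK.2
      ⟨f, U.anti i hf, (M * m₁) • r, by rw [hr, smul_smul]⟩)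
    obtain ⟨r', hr'⟩ := hkc (s • x)
    have e1 : (s • x - x) - f = m₁ • (M • (m₂ • r - r')) := by
      rw [mul_smul] at hr
      have h2 : s • x - x - f = (m₂ * (M * m₁)) • r - (M * m₁) • r' := by
        rw [← hr']
        have : (m₂ * (M * m₁)) • r = k • (s • x) - x - f := by rw [hr]; abel
        rw [this]; abel
      rw [h2, nsmul_sub, nsmul_sub, smul_smul, smul_smul, smul_smul]
      congr 2 <;> ring
    have hD : (s • x - x) - f ∈ DD U x i :=
      ⟨(F i).sub_mem hsF (U.anti i hf), s, by simpa using hf⟩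
    obtain ⟨b, ⟨hb, u, hub⟩, hbN⟩ := har (M • (m₂ • r - r')) (e1 ▸ hD)
    rw [← e1] at hbN
    have hpow := pow_sub (F (i+1)) u (fun k hk => U.pres u hk) x b hub (U.act u i b hb) (M ^ n)
    set w := u ^ (M ^ n) with hw
    refine ⟨k * w, w⁻¹ * s, by group, (hkc.of_dvd (Dvd.intro _ rfl)).mul
        (U.congPow M u), ?_⟩
    have e2 : (w⁻¹ * s) • x - x
        = w⁻¹ • ((s • x - x - f - (M ^ n) • b) + f - (w • x - x - (M ^ n) • b)) := by
      have h5 : (s • x - x - f - (M ^ n) • b) + f - (w • x - x - (M ^ n) • b)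
          = s • x - w • x := by abel
      rw [h5, smul_sub, inv_smul_smul, mul_smul]
    rw [e2]
    refine U.pres _ ((F (i+1)).sub_mem ((F (i+1)).add_mem ?_ hf) hpow)
    rw [hbN]; simp [(F (i+1)).zero_mem]

/-- **Orbit separation.** -/
theorem Unip.orbit_sep [AddGroup.FG R] (U : Unip G F n) (x y : R)
    (hxy : ∀ m : ℕ, 0 < m → ∃ h : G, ∃ r : R, y - h • x = m • r) : ∃ h : G, h • x = y := by
  have key : ∀ i, ∃ h : G, y - h • x ∈ F i := by
    intro i
    induction i with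
    | zero => exact ⟨1, by rw [U.top]; trivial⟩
    | succ i ih =>
      obtain ⟨g, hgy⟩ := ih
      have hy' : g⁻¹ • y - x ∈ F i := by
        have := U.pres g⁻¹ hgy
        rwa [smul_sub, inv_smul_smul] at this
      have hD : g⁻¹ • y - x ∈ DD U x i ⊔ F (i + 1) := by
        rw [← QuotientAddGroup.eq_zero_iff]
        apply div_zero
        intro M hM
        obtain ⟨m, hm, hP⟩ := U.step x i M hM
        obtain ⟨h, r, hr⟩ := hxy (M * m) (Nat.mul_pos hM hm)
        have h1 : g⁻¹ • y - (g⁻¹ * h) • x = (M * m) • (g⁻¹ • r) := by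
          rw [mul_smul g⁻¹ h x, ← smul_sub, hr, smul_nsmul]
        obtain ⟨k, s, hks, hkc, hsF⟩ := hP (g⁻¹ * h) (mem_KK.2
          ⟨g⁻¹ • y - x, hy', -(M • (g⁻¹ • r)), by
            have e : (g⁻¹ * h) • x = g⁻¹ • y - (M * m) • (g⁻¹ • r) := by rw [← h1]; abel
            rw [e, smul_neg, smul_smul, mul_comm m M]; abel⟩)
        obtain ⟨r', hr'⟩ := hkc (s • x)
        refine ⟨QuotientAddGroup.mk (m • (g⁻¹ • r) + r'), ?_⟩
        rw [← QuotientAddGroup.mk_nsmul, QuotientAddGroup.eq]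
        have e2 : -(g⁻¹ • y - x) + M • (m • (g⁻¹ • r) + r') = -(s • x - x) := by
          rw [hks, mul_smul k s x] at h1
          rw [nsmul_add, ← hr', smul_smul, ← h1]; abel
        rw [e2]
        refine AddSubgroup.neg_mem _ (AddSubgroup.mem_sup_left ⟨hsF, s, ?_⟩)
        rw [sub_self]; exact (F (i+1)).zero_mem
      obtain ⟨d, ⟨hd, s, hs⟩, f, hf, hdf⟩ := AddSubgroup.mem_sup.1 hD
      refine ⟨g * s, ?_⟩
      have e3 : y - (g * s) • x = g • (f - (s • x - x - d)) := by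
        have : g • (f - (s • x - x - d)) = g • ((d + f) + x - s • x) := by
          congr 1; abel
        rw [this, hdf, sub_add_cancel, smul_sub, smul_inv_smul, mul_smul]
      rw [e3]
      exact U.pres g ((F (i+1)).sub_mem hf hs)
  obtain ⟨h, hy⟩ := key n
  rw [U.bot, AddSubgroup.mem_bot, sub_eq_zero] at hy
  exact ⟨h, hy.symm⟩

/-- Coprime moduli can be glued. -/
theorem Unip.glue (U : Unip G F n) (x y : R) (a b : ℕ) (hab : Nat.Coprime a b)
    (ha : ∃ h : G, ∃ r : R, y - h • x = a • r) (hb : ∃ h : G, ∃ r : R, y - h • x = b • r) :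
    ∃ h : G, ∃ r : R, y - h • x = (a * b) • r := by
  obtain ⟨g, r, hr⟩ := ha
  obtain ⟨h, s, hs⟩ := hb
  have hco : Nat.Coprime (a ^ n) (b ^ n) := Nat.Coprime.pow _ _ hab
  obtain ⟨i, hi1, hi2⟩ := Nat.chineseRemainder hco 1 0
  obtain ⟨j, hj1, hj2⟩ := Nat.chineseRemainder hco 0 1
  -- general: `u ^ i` acts as `u` mod `a` if `i ≡ 1 mod a^n`
  have g1 : ∀ (c : ℕ) (u : G) (i : ℕ), i ≡ 1 [MOD c ^ n] → ∀ z : R, ∃ t : R,
      (u ^ i) • z - u • z = c • t := by
    intro c u i hi z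
    have hz : (i : ℤ) ≡ 1 [ZMOD (c ^ n : ℕ)] := by exact_mod_cast (Int.natCast_modEq_iff.2 hi)
    rcases Nat.eq_zero_or_pos i with h0 | hpos
    · subst h0
      have hd : (c ^ n) ∣ 1 := by
        have := (Nat.modEq_iff_dvd' (Nat.zero_le 1)).1 hi
        simpa using this
      have hc1 : c ^ n = 1 := Nat.dvd_one.1 hd
      obtain ⟨t, ht⟩ := U.congPow c u z
      rw [hc1, pow_one] at ht
      exact ⟨-t, by rw [pow_zero, one_smul, smul_neg, ← ht]; abel⟩
    · obtain ⟨q, hq⟩ := (Nat.modEq_iff_dvd' (Nat.succ_le_of_lt hpos)).1 hi.symm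
      have hi' : i = 1 + c ^ n * q := by omega
      obtain ⟨t, ht⟩ := (U.congPow c u).pow q z
      refine ⟨u • t, ?_⟩
      rw [hi', pow_add, pow_one, pow_mul, mul_smul, ← smul_sub, ht, smul_nsmul]
  have g0 : ∀ (c : ℕ) (u : G) (i : ℕ), i ≡ 0 [MOD c ^ n] → Cong R c (u ^ i) := by
    intro c u i hi
    obtain ⟨q, hq⟩ := (Nat.modEq_zero_iff_dvd.1 hi)
    rw [hq, pow_mul]
    exact (U.congPow c u).pow q
  refine ⟨g ^ i * h ^ j, ?_⟩
  obtain ⟨t₁, ht₁⟩ := g0 a h j hj1 x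
  obtain ⟨t₂, ht₂⟩ := g1 a g i hi1 x
  obtain ⟨t₃, ht₃⟩ := g0 b g i hi2 ((h ^ j) • x)
  obtain ⟨t₄, ht₄⟩ := g1 b h j hj2 x
  have ea : y - (g ^ i * h ^ j) • x = a • (r - t₂ - (g ^ i) • t₁) := by
    have h2 : (h ^ j) • x = x + a • t₁ := by rw [← ht₁]; abel
    have h3 : (g ^ i) • x = g • x + a • t₂ := by rw [← ht₂]; abel
    rw [mul_smul, h2, smul_add, h3, smul_nsmul, nsmul_sub, nsmul_sub, ← hr]; abel
  have eb : y - (g ^ i * h ^ j) • x = b • (s - t₄ - t₃) := by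
    have h2 : (g ^ i) • (h ^ j) • x = (h ^ j) • x + b • t₃ := by rw [← ht₃]; abel
    have h3 : (h ^ j) • x = h • x + b • t₄ := by rw [← ht₄]; abel
    rw [mul_smul, h2, h3, nsmul_sub, nsmul_sub, ← hs]; abel
  -- combine
  have hbez : (1 : ℤ) = a * Nat.gcdA a b + b * Nat.gcdB a b := by
    have := Nat.gcd_eq_gcd_ab a b
    rw [Nat.Coprime.gcd_eq_one hab] at this
    exact_mod_cast this
  refine ⟨Nat.gcdA a b • (s - t₄ - t₃) + Nat.gcdB a b • (r - t₂ - (g ^ i) • t₁), ?_⟩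
  set w := y - (g ^ i * h ^ j) • x with hw
  have : w = (a * Nat.gcdA a b + b * Nat.gcdB a b : ℤ) • w := by rw [← hbez, one_smul]
  rw [this, add_smul]
  nth_rewrite 1 [eb]
  nth_rewrite 1 [ea]
  rw [nsmul_add]
  simp only [← natCast_zsmul, smul_smul]
  congr 2
  · push_cast; ring
  · push_cast; ring

/-- Separation by prime powers. -/
theorem Unip.orbit_sep_prime [AddGroup.FG R] (U : Unip G F n) (x y : R)
    (hxy : ∀ p k : ℕ, p.Prime → ∃ h : G, ∃ r : R, y - h • x = (p ^ k) • r) :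
    ∃ h : G, h • x = y := by
  refine U.orbit_sep x y ?_
  intro m
  induction m using Nat.recOnPrimeCoprime with
  | zero => intro h; omega
  | prime_pow p k hp => intro _; exact hxy p k hp
  | coprime a b ha hb hab iha ihb =>
    intro _
    exact U.glue x y a b hab (iha (by omega)) (ihb (by omega))

end

end Pool.Agent.K1H23.FT
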