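import Mathlib

/-! Arbitrary functions on a finite abelian `p`-group composed with a map on a cube that has
vanishing alternating sums on all faces of dimension `n + 1` have vanishing alternating sum
on cubes of large dimension. -/

namespace Pool.Agent.K1H23.FT

open scoped Classical
open Finset

variable {ι : Type*}

/-- Moebius coefficients of a map on the cube. -/
noncomputable def coef {A : Type*} [AddCommGroup A] (v : Finset ι → A) (S : Finset ι) : A :=
  ∑ T ∈ S.powerset, ((-1 : ℤ) ^ (S.card - T.card)) • v T

theorem sum_coef {A : Type*} [AddCommGroup A] (v : Finset ι → A) (U : Finset ι) :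
    ∑ S ∈ U.powerset, coef v S = v U := by
  induction U using Finset.strongInduction generalizing v with
  | H U ih =>
    rcases U.eq_empty_or_nonempty with rfl | ⟨a, ha⟩
    · simp [coef]
    · obtain ⟨W, haW, rfl⟩ : ∃ W, a ∉ W ∧ insert a W = U := ⟨U.erase a, by simp, insert_erase ha⟩
      have hc : ∀ S ∈ W.powerset, coef v (insert a S)
          = coef (fun T => v (insert a T)) S - coef v S := by
        intro S hS
        have haS : a ∉ S := fun h => haW (mem_powerset.1 hS h)
        unfold coef
        rw [sum_powerset_insert haS, add_comm, sub_eq_add_neg, ← sum_neg_distrib]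
        congr 1
        · apply sum_congr rfl
          intro T hT
          have haT : a ∉ T := fun h => haS (mem_powerset.1 hT h)
          rw [card_insert_of_notMem haS, card_insert_of_notMem haT, Nat.add_sub_add_right]
        · apply sum_congr rfl
          intro T hT
          have hle : T.card ≤ S.card := card_le_card (mem_powerset.1 hT)
          rw [card_insert_of_notMem haS, Nat.succ_sub hle, pow_succ, mul_neg_one, neg_smul]
      rw [sum_powerset_insert haW, sum_congr rfl hc, sum_sub_distrib]
      have hs : W ⊂ insert a W := ssubset_insert haW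
      rw [ih W hs v, ih W hs (fun T => v (insert a T))]
      abel

/-- faces -/
def FaceZero {A : Type*} [AddCommGroup A] (v : Finset ι → A) (n : ℕ) : Prop :=
  ∀ E S : Finset ι, Disjoint E S → S.card = n + 1 →
    ∑ T ∈ S.powerset, ((-1 : ℤ) ^ T.card) • v (E ∪ T) = 0

theorem coef_zero {A : Type*} [AddCommGroup A] (v : Finset ι → A) (n : ℕ) (hv : FaceZero v n)
    (S : Finset ι) (hS : n < S.card) : coef v S = 0 := by
  -- signs: `(-1)^(|S|-|T|) = (-1)^|S| (-1)^|T|`
  have h1 : coef v S = ((-1 : ℤ) ^ S.card) • ∑ T ∈ S.powerset, ((-1 : ℤ) ^ T.card) • v T := by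
    unfold coef
    rw [smul_sum]
    apply sum_congr rfl
    intro T hT
    have hle : T.card ≤ S.card := card_le_card (mem_powerset.1 hT)
    rw [smul_smul]
    congr 1
    obtain ⟨d, hd⟩ := Nat.exists_eq_add_of_le hle
    rw [hd, Nat.add_sub_cancel_left, pow_add]
    have : ((-1 : ℤ) ^ T.card) * ((-1 : ℤ) ^ T.card) = 1 := by
      rw [← mul_pow]; simp
    calc ((-1 : ℤ) ^ d) = (((-1 : ℤ) ^ T.card) * ((-1 : ℤ) ^ T.card)) * (-1) ^ d := by
          rw [this, one_mul]
      _ = _ := by ring
  rw [h1]
  -- split S
  obtain ⟨S₀, hS₀, hc⟩ := exists_subset_card_eq (Nat.succ_le_of_lt hS)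
  have h2 : ∀ (W : Finset ι), ∀ E : Finset ι, Disjoint E S₀ → Disjoint W S₀ → Disjoint E W →
      ∑ T ∈ (S₀ ∪ W).powerset, ((-1 : ℤ) ^ T.card) • v (E ∪ T) = 0 := by
    intro W
    induction W using Finset.induction_on with
    | empty => intro E hE _ _; rw [union_empty]; exact hv E S₀ hE hc
    | insert a W ha ih =>
      intro E hE hW hEW
      have haS : a ∉ S₀ := by
        intro h; exact (disjoint_left.1 hW) (mem_insert_self a W) h
      have haSW : a ∉ S₀ ∪ W := by simp [haS, ha]
      have hW' : Disjoint W S₀ := hW.mono_left (subset_insert a W)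
      have hEW' : Disjoint E W := hEW.mono_right (subset_insert a W)
      have haE : a ∉ E := by
        intro h; exact (disjoint_left.1 hEW) h (mem_insert_self a W)
      rw [union_insert, sum_powerset_insert haSW, ih E hE hW' hEW', zero_add]
      have h3 := ih (insert a E) (by
        rw [disjoint_insert_left]; exact ⟨haS, hE⟩) hW' (by
        rw [disjoint_insert_left]; exact ⟨ha, hEW'⟩)
      rw [← neg_eq_zero, ← sum_neg_distrib, ← h3]
      apply sum_congr rfl
      intro T hT
      have haT : a ∉ T := fun h => haSW (mem_powerset.1 hT h)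
      rw [card_insert_of_notMem haT, pow_succ, mul_neg_one, neg_smul, neg_neg, union_insert,
        insert_union]
  have h4 := h2 (S \ S₀) ∅ (disjoint_empty_left _) sdiff_disjoint (disjoint_empty_left _)
  rw [union_sdiff_of_subset hS₀] at h4
  simp only [empty_union] at h4
  rw [h4, smul_zero]

theorem interval_zero (I V : Finset ι) (hV : ∃ a ∈ I, a ∉ V) :
    ∑ U ∈ I.powerset, (if V ⊆ U then ((-1 : ℤ) ^ U.card) else 0) = 0 := by
  obtain ⟨a, ha, haV⟩ := hV
  obtain ⟨W, haW, rfl⟩ : ∃ W, a ∉ W ∧ insert a W = I := ⟨I.erase a, by simp, insert_erase ha⟩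
  rw [sum_powerset_insert haW, ← sum_add_distrib]
  apply sum_eq_zero
  intro U hU
  have haU : a ∉ U := fun h => haW (mem_powerset.1 hU h)
  have h1 : V ⊆ insert a U ↔ V ⊆ U := by
    rw [subset_insert_iff_of_notMem haV]
  rw [card_insert_of_notMem haU, pow_succ]
  by_cases h : V ⊆ U
  · rw [if_pos h, if_pos (h1.2 h)]; ring
  · rw [if_neg h, if_neg (fun h' => h (h1.1 h'))]; ring

/-- **Polynomiality**: `φ ∘ v` has vanishing alternating sum over big cubes. -/
theorem alt_sum_zero {A : Type*} [AddCommGroup A] [Fintype A] (p : ℕ) [Fact p.Prime] (k : ℕ)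
    (hA : ∀ a : A, (p ^ k) • a = 0) {B : Type*} [AddCommGroup B] [Module (ZMod p) B]
    (φ : A → B) (n : ℕ) (v : Finset ι → A) (hv : FaceZero v n) (I : Finset ι)
    (hI : n * (Fintype.card A * p ^ k) < I.card) :
    ∑ U ∈ I.powerset, ((-1 : ℤ) ^ U.card) • φ (v U) = 0 := by
  let Q := AddMonoidAlgebra (ZMod p) A
  let y : A → Q := fun a => AddMonoidAlgebra.single a 1 - 1
  have hy0 : y 0 = 0 := by
    change AddMonoidAlgebra.single (0 : A) (1 : ZMod p) - 1 = 0
    rw [AddMonoidAlgebra.one_def, sub_self]
  have hyp : ∀ a, (y a) ^ (p ^ k) = 0 := by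
    intro a
    have : CharP Q p :=
      charP_of_injective_algebraMap (FaithfulSMul.algebraMap_injective (ZMod p) Q) p
    have h1 : (y a) ^ (p ^ k) = (AddMonoidAlgebra.single a 1) ^ (p ^ k) - 1 ^ (p ^ k) :=
      sub_pow_char_pow (R := Q) (p := p) (n := k) _ _
    rw [h1, AddMonoidAlgebra.single_pow, hA a, one_pow, one_pow, AddMonoidAlgebra.one_def, sub_self]
  -- the class of `v U`
  have hX : ∀ U : Finset ι, (AddMonoidAlgebra.single (v U) 1 : Q)
      = ∏ S ∈ U.powerset, (1 + y (coef v S)) := by
    intro U
    have h1 : ∀ W : Finset (Finset ι), (AddMonoidAlgebra.single (∑ S ∈ W, coef v S) 1 : Q)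
      = ∏ S ∈ W, (1 + y (coef v S)) := by
      intro W
      induction W using Finset.induction_on with
      | empty => rw [sum_empty, prod_empty, AddMonoidAlgebra.one_def]
      | insert a W ha ih =>
        rw [sum_insert ha, prod_insert ha, ← ih]
        change _ = (1 + (AddMonoidAlgebra.single (coef v a) 1 - 1)) * _
        rw [add_sub_cancel, AddMonoidAlgebra.single_mul_single, one_mul]
    rw [← h1, sum_coef]
  -- the alternating sum vanishes in `Q`
  have hQ : ∑ U ∈ I.powerset, ((-1 : ℤ) ^ U.card) • (AddMonoidAlgebra.single (v U) 1 : Q) = 0 := by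
    have h1 : ∀ U ∈ I.powerset, ((-1 : ℤ) ^ U.card) • (AddMonoidAlgebra.single (v U) 1 : Q)
        = ∑ T ∈ I.powerset.powerset, (if T.sup id ⊆ U then ((-1 : ℤ) ^ U.card) else 0) •
            ∏ S ∈ T, y (coef v S) := by
      intro U hU
      rw [hX U, prod_one_add, smul_sum]
      have hsub : U.powerset.powerset ⊆ I.powerset.powerset :=
        powerset_mono.2 (powerset_mono.2 (mem_powerset.1 hU))
      rw [← sum_subset hsub]
      · apply sum_congr rfl
        intro T hT
        rw [if_pos]
        apply Finset.sup_le
        intro S hS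
        exact mem_powerset.1 (mem_powerset.1 hT hS)
      · intro T _ hT
        rw [if_neg, zero_smul]
        intro h
        apply hT
        rw [mem_powerset]
        intro S hS
        rw [mem_powerset]
        exact (Finset.le_sup (f := id) hS).trans h
    rw [sum_congr rfl h1, sum_comm]
    apply sum_eq_zero
    intro T hT
    rw [← sum_smul]
    by_cases hV : ∃ a ∈ I, a ∉ T.sup id
    · rw [interval_zero I (T.sup id) hV, zero_smul]
    · push Not at hV
      suffices h : ∏ S ∈ T, y (coef v S) = 0 by rw [h, smul_zero]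
      by_cases hbig : ∃ S ∈ T, n < S.card
      · obtain ⟨S, hS, hn⟩ := hbig
        exact prod_eq_zero hS (by rw [coef_zero v n hv S hn, hy0])
      · push Not at hbig
        have hle : I.card ≤ n * T.card := by
          calc I.card ≤ (T.sup id).card := card_le_card hV
            _ = (T.biUnion id).card := by rw [sup_eq_biUnion]
            _ ≤ ∑ S ∈ T, (id S).card := card_biUnion_le
            _ ≤ ∑ S ∈ T, n := sum_le_sum hbig
            _ = n * T.card := by rw [sum_const, smul_eq_mul, mul_comm]
        have hlt : Fintype.card A * p ^ k < T.card :=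
          lt_of_mul_lt_mul_left (hI.trans_le hle) (Nat.zero_le n)
        obtain ⟨a, -, ha⟩ := exists_lt_card_fiber_of_mul_lt_card_of_maps_to
          (s := T) (t := (univ : Finset A)) (f := coef v) (fun S _ => mem_univ _)
          (n := p ^ k) (by rw [card_univ]; exact hlt)
        rw [← prod_filter_mul_prod_filter_not T (fun S => coef v S = a)]
        have h2 : ∏ S ∈ T with coef v S = a, y (coef v S) = 0 := by
          rw [prod_congr rfl (fun S hS => by rw [(mem_filter.1 hS).2]), prod_const]
          obtain ⟨d, hd⟩ := Nat.exists_eq_add_of_le ha.le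
          rw [hd, pow_add, hyp a, zero_mul]
        rw [h2, zero_mul]
  -- linear extension of φ
  let Φ : Q →+ B :=
    { toFun := fun q => ∑ a : A, q.coeff a • φ a
      map_zero' := by simp
      map_add' := by
        intro q r
        rw [← sum_add_distrib]
        exact sum_congr rfl (fun a _ => by
          rw [AddMonoidAlgebra.coeff_add, Finsupp.add_apply, add_smul]) }
  have hΦ : ∀ a : A, Φ (AddMonoidAlgebra.single a 1) = φ a := by
    intro a
    change ∑ b : A, (AddMonoidAlgebra.single a (1 : ZMod p)).coeff b • φ b = φ a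
    rw [sum_eq_single a]
    · simp
    · intro b _ hb
      simp [hb.symm]
    · intro h; exact absurd (mem_univ a) h
  have h3 := congrArg Φ hQ
  rw [map_sum, map_zero] at h3
  rw [← h3]
  apply sum_congr rfl
  intro U _
  rw [map_zsmul, hΦ]

end Pool.Agent.K1H23.FT
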