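import Pool.Agent.K1H23.FT.Orbit
import Pool.Agent.K1H23.FT.Poly

/-! Different orbits are separated by an invariant function with values in `ZMod p` which is
polynomial. -/

namespace Pool.Agent.K1H23.FT

open scoped Classical
open Finset

universe u

theorem separation {G R : Type*} [Group G] [AddCommGroup R] [DistribMulAction G R]
    [AddGroup.FG R] {F : ℕ → AddSubgroup R} {N : ℕ} (U : Unip G F N) (x y : R)
    (hxy : ∀ h : G, h • x ≠ y) :
    ∃ p : ℕ, p.Prime ∧ ∃ (φ : R → ZMod p) (D : ℕ), φ x = 1 ∧ φ y = 0 ∧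
      (∀ (h : G) (z : R), φ (h • z) = φ z) ∧
      ∀ (ι : Type u) (n : ℕ) (v : Finset ι → R), FaceZero v n →
        ∀ I : Finset ι, n * D < I.card →
          ∑ W ∈ I.powerset, ((-1 : ℤ) ^ W.card) • φ (v W) = 0 := by
  by_contra hcon
  obtain ⟨h, hh⟩ := U.orbit_sep_prime x y (by
    intro p k hp
    by_contra hno
    push Not at hno
    apply hcon
    haveI : Fact p.Prime := ⟨hp⟩
    let K : AddSubgroup R := (nsmulAddMonoidHom (p ^ k) : R →+ R).range
    have hK : ∀ r : R, (p ^ k) • r ∈ K := fun r => ⟨r, rfl⟩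
    let A := R ⧸ K
    have hA : ∀ a : A, (p ^ k) • a = 0 := by
      intro a
      obtain ⟨r, rfl⟩ := QuotientAddGroup.mk_surjective a
      rw [← QuotientAddGroup.mk_nsmul, QuotientAddGroup.eq_zero_iff]
      exact hK r
    have hpk : 0 < p ^ k := pow_pos hp.pos k
    have hfin : Finite A := by
      have : AddGroup.FG A := inferInstance
      apply AddCommGroup.finite_of_fg_isAddTorsion A
      intro a
      rw [isOfFinAddOrder_iff_nsmul_eq_zero]
      exact ⟨p ^ k, hpk, hA a⟩
    haveI : Fintype A := Fintype.ofFinite A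
    let ψ : A → ZMod p := fun a => if ∃ h : G, a = QuotientAddGroup.mk (h • x) then 1 else 0
    have hinv : ∀ (h : G) (z w : R), (QuotientAddGroup.mk z : A) = QuotientAddGroup.mk w →
        (QuotientAddGroup.mk (h • z) : A) = QuotientAddGroup.mk (h • w) := by
      intro h z w hzw
      rw [QuotientAddGroup.eq] at hzw ⊢
      obtain ⟨r, hr⟩ := hzw
      refine ⟨h • r, ?_⟩
      change (p ^ k) • r = -z + w at hr
      change (p ^ k) • (h • r) = -(h • z) + h • w
      rw [← smul_nsmul, hr, smul_add, smul_neg]
    refine ⟨p, hp, fun z => ψ (QuotientAddGroup.mk z), Fintype.card A * p ^ k, ?_, ?_, ?_, ?_⟩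
    · exact if_pos ⟨1, by rw [one_smul]⟩
    · apply if_neg
      rintro ⟨h, hh⟩
      rw [QuotientAddGroup.eq] at hh
      obtain ⟨r, hr⟩ := hh
      change (p ^ k) • r = -y + h • x at hr
      exact hno h (-r) (by rw [smul_neg, hr]; abel)
    · intro h z
      have : (∃ g : G, (QuotientAddGroup.mk (h • z) : A) = QuotientAddGroup.mk (g • x)) ↔
          (∃ g : G, (QuotientAddGroup.mk z : A) = QuotientAddGroup.mk (g • x)) := by
        constructor
        · rintro ⟨g, hg⟩
          refine ⟨h⁻¹ * g, ?_⟩
          have := hinv h⁻¹ _ _ hg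
          rwa [inv_smul_smul, ← mul_smul] at this
        · rintro ⟨g, hg⟩
          refine ⟨h * g, ?_⟩
          have := hinv h _ _ hg
          rwa [← mul_smul] at this
      simp only [ψ, this]
    · intro ι n v hv I hI
      have hv' : FaceZero (fun W => (QuotientAddGroup.mk (v W) : A)) n := by
        intro E S hES hS
        have h1 := congrArg (QuotientAddGroup.mk' K) (hv E S hES hS)
        rw [map_sum, map_zero] at h1
        rw [← h1]
        apply sum_congr rfl
        intro T _
        rw [map_zsmul]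
        rfl
      exact alt_sum_zero p k hA ψ n _ hv' I hI)
  exact hxy h hh

end Pool.Agent.K1H23.FT
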